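import Pool.Agent.N110.Log
import Pool.Agent.N110.RK.Main

/-!
Birational self-maps which preserve the open part of a log canonical pair.
-/

set_option autoImplicit false

open FF Pool.Agent.W602.GT Pool.Agent.Y172 Pool.Agent.R887

namespace Pool.Agent.N110

section

variable {K : Type} [Field K] [Algebra ℂ K] {N n : ℕ} {y : Fin (N + 1) → K}

/-- Every birational self-map of `X` which maps no prime divisor of the open part into the boundary
satisfies `f^* (K_X + D) ≤ K_X + D`, if `(X, D)` is log canonical, `D` is reduced and the open part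
is canonical. -/
theorem pullLe_log (hy : NormalModel y) (hn : Algebra.trdeg ℂ K = n) {D : Place ℂ K → ℚ}
    (hred : ∀ P, IsPrimeDivisor y P → D P = 0 ∨ D P = 1) (hlc : LogCanonical y n D)
    (hcan : CanonicalOff y n D) {φ : K ≃ₐ[ℂ] K} (hφ : PreservesOpen (φ : K →ₐ[ℂ] K) y D) :
    PullLe φ y n D := by
  intro Q hQ P hP
  obtain ⟨α, h1, h2⟩ := selfPullLe_log hy hn hred hlc hcan hφ Q hQ P 1 ⟨le_rfl, fun f => by
    rw [Nat.cast_one, one_mul]
    exact (hP f).symm⟩
  exact ⟨α, h1, by rwa [Nat.cast_one, one_mul] at h2⟩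

end

end Pool.Agent.N110
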